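import Mathlib

/-!
# Project LC (owner helper298), task BOT2: elementary facts
-/

set_option autoImplicit false

open Set Filter Metric Topology Complex Bornology

namespace Pool.Agent.Y664.LC

theorem root {d : ℕ} (hd : 2 ≤ d) {z : ℂ} (h : Tendsto (fun n : ℕ => z ^ (d ^ n)) atTop (𝓝 1)) :
    ∃ n : ℕ, z ^ (d ^ n) = 1 := by
  by_contra hcon
  push Not at hcon
  obtain ⟨f, hf⟩ : ∃ f : ℕ → ℂ, f = fun n => z ^ (d ^ n) := ⟨_, rfl⟩
  have hfs : ∀ n, f (n + 1) = f n ^ d := by
    intro n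
    rw [hf]
    simp only
    rw [pow_succ, pow_mul]
  have hf1 : ∀ n, f n ≠ 1 := by
    intro n
    rw [hf]
    exact hcon n
  have hft : Tendsto f atTop (𝓝 1) := by rw [hf]; exact h
  have hS : Continuous fun y : ℂ => ∑ i ∈ Finset.range d, y ^ i := by fun_prop
  have hS1 : Tendsto (fun n => ‖∑ i ∈ Finset.range d, f n ^ i‖) atTop (𝓝 (d : ℝ)) := by
    have h1 := ((hS.tendsto 1).comp hft).norm
    have h2 : ‖∑ i ∈ Finset.range d, (1 : ℂ) ^ i‖ = (d : ℝ) := by simp
    rw [h2] at h1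
    exact h1
  have hd2 : (1 : ℝ) < d := by exact_mod_cast (by omega : 1 < d)
  obtain ⟨N, hN⟩ := eventually_atTop.1 (hS1.eventually_const_lt hd2)
  have hmono : ∀ k, ‖f N - 1‖ ≤ ‖f (N + k) - 1‖ := by
    intro k
    induction k with
    | zero => exact le_rfl
    | succ k ih =>
      refine ih.trans ?_
      rw [← add_assoc, hfs, ← mul_geom_sum (f (N + k)) d, norm_mul]
      have h1 := (hN (N + k) (by omega)).le
      exact le_mul_of_one_le_right (norm_nonneg _) h1
  have h1 : Tendsto (fun k => ‖f (N + k) - 1‖) atTop (𝓝 0) := by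
    have h2 : Tendsto (fun k => f (N + k)) atTop (𝓝 1) := by
      have := (tendsto_add_atTop_iff_nat N).2 hft
      simpa only [add_comm] using this
    have h3 := (h2.sub_const 1).norm
    rwa [sub_self, norm_zero] at h3
  have h2 : ‖f N - 1‖ ≤ 0 := ge_of_tendsto' h1 hmono
  exact hf1 N (sub_eq_zero.1 (norm_le_zero_iff.1 h2))

theorem countT {d : ℕ} (hd : 2 ≤ d) : {z : ℂ | ∃ n : ℕ, z ^ (d ^ n) = 1}.Countable := by
  have h1 : {z : ℂ | ∃ n : ℕ, z ^ (d ^ n) = 1} ⊆
      ⋃ n : ℕ, ((Polynomial.nthRoots (d ^ n) (1 : ℂ)).toFinset : Set ℂ) := by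
    rintro z ⟨n, hn⟩
    refine mem_iUnion.2 ⟨n, ?_⟩
    rw [Finset.mem_coe, Multiset.mem_toFinset, Polynomial.mem_nthRoots (pow_pos (by omega) _)]
    exact hn
  exact (countable_iUnion fun n => (Finset.countable_toSet _)).mono h1

theorem ext_preconnected : IsPreconnected {w : ℂ | 1 < ‖w‖} := by
  have h1 : {w : ℂ | 1 < ‖w‖} = Complex.exp '' {z : ℂ | 0 < z.re} := by
    ext w
    constructor
    · intro hw
      have hw' : 1 < ‖w‖ := hw
      have hw0 : w ≠ 0 := by
        rintro rfl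
        rw [norm_zero] at hw'
        linarith
      refine ⟨Complex.log w, ?_, Complex.exp_log hw0⟩
      show 0 < (Complex.log w).re
      rw [Complex.log_re]
      exact Real.log_pos hw'
    · rintro ⟨z, hz, rfl⟩
      show 1 < ‖Complex.exp z‖
      rw [Complex.norm_exp]
      exact Real.one_lt_exp_iff.2 hz
  rw [h1]
  exact (convex_halfSpace_re_gt 0).isPreconnected.image _ Complex.continuous_exp.continuousOn

theorem const {T S : Set ℂ} (hT : T.Countable) (hS : IsPreconnected S) {f : ℂ → ℂ}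
    (hf : ContinuousOn f S) (hfT : ∀ z ∈ S, f z ∈ T) {a b : ℂ} (ha : a ∈ S) (hb : b ∈ S) :
    f a = f b := by
  have h1 : IsPreconnected (f '' S) := hS.image f hf
  have h2 : f '' S ⊆ T := by
    rintro _ ⟨z, hz, rfl⟩
    exact hfT z hz
  exact hT.isTotallyDisconnected (f '' S) h2 h1 ⟨a, ha, rfl⟩ ⟨b, hb, rfl⟩

theorem pow_atTop {d : ℕ} (hd : 2 ≤ d) : Tendsto (fun n : ℕ => d ^ n) atTop atTop :=
  tendsto_pow_atTop_atTop_of_one_lt (by omega)

/-- the growth rate -/
theorem rate {d : ℕ} (hd : 2 ≤ d) {r : ℝ} (hr : 1 < r) {p b : ℕ → ℝ}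
    (hp : ∀ n, p n = r ^ (d ^ n) * b n) (hb : Tendsto b atTop (𝓝 1)) :
    Tendsto (fun n => Real.posLog (p n) / (d : ℝ) ^ n) atTop (𝓝 (Real.log r)) := by
  have hd0 : (0 : ℝ) < d := by exact_mod_cast (by omega : 0 < d)
  have hd1 : (1 : ℝ) < d := by exact_mod_cast (by omega : 1 < d)
  have h1 : Tendsto (fun n => Real.log r + Real.log (b n) / (d : ℝ) ^ n) atTop
      (𝓝 (Real.log r + 0)) := by
    refine tendsto_const_nhds.add ?_
    have h2 : Tendsto (fun n => Real.log (b n)) atTop (𝓝 (Real.log 1)) :=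
      (Real.continuousAt_log one_ne_zero).tendsto.comp hb
    exact h2.div_atTop (tendsto_pow_atTop_atTop_of_one_lt hd1)
  rw [add_zero] at h1
  refine h1.congr' ?_
  have h3 : Tendsto (fun n : ℕ => r ^ (d ^ n)) atTop atTop :=
    (tendsto_pow_atTop_atTop_of_one_lt hr).comp (pow_atTop hd)
  have h4 : Tendsto p atTop atTop := by
    have h5 := h3.atTop_mul_pos one_pos hb
    exact h5.congr fun n => (hp n).symm
  filter_upwards [h4.eventually_ge_atTop 1, hb.eventually_const_lt (show (0 : ℝ) < 1 by norm_num)]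
    with n h6 h7
  have h8 : Real.posLog (p n) = Real.log (p n) := by
    unfold Real.posLog
    exact max_eq_right (Real.log_nonneg h6)
  rw [h8, hp, Real.log_mul (by positivity) h7.ne', Real.log_pow, Nat.cast_pow, add_div]
  congr 1
  field_simp

end Pool.Agent.Y664.LC
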