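import Pool.Agent.Y298.LC.Stm
import Pool.Agent.Y87.TY.Log
import Pool.Agent.Y664.LC.Core

/-!
# Project LC (owner helper298), task BOT2: the exterior map of the Multibrot set and the inverse
Böttcher maps
-/

set_option autoImplicit false

open Set Filter Metric Topology Complex Bornology

namespace Pool.Agent.Y664.LC

open Pool.Agent.H712R2 (P fc P_succ iter_c)
open Pool.Agent.H713R2 (IsExteriorMap IsBeta exists_beta exteriorMap_unique BB BB_eq inv_mem_ball)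
open Pool.Agent.H713R2.AR (green gap gap_tendsto green_nonneg)
open Pool.Agent.Y298.LC
open Pool.Agent.Y272.TY (cc IsLog)
open N62a1eb23 (multibrotSet)

variable {d : ℕ}

theorem Dom_norm (hd : 2 ≤ d) {c w : ℂ} (hw : w ∈ Dom (green d c 0)) : 1 < ‖w‖ := by
  have h1 : green d c 0 < Real.log ‖w‖ := hw
  have h2 := green_nonneg hd c 0
  exact (Real.log_pos_iff (norm_nonneg w)).1 (by linarith)

theorem Dom_pow (hd : 2 ≤ d) {c w : ℂ} (hw : w ∈ Dom (green d c 0)) (n : ℕ) :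
    w ^ (d ^ n) ∈ Dom (green d c 0) := by
  have h1 : green d c 0 < Real.log ‖w‖ := hw
  have h2 := green_nonneg hd c 0
  have h3 : (1 : ℝ) ≤ ((d ^ n : ℕ) : ℝ) := by
    exact_mod_cast Nat.one_le_pow _ _ (by omega)
  show green d c 0 < Real.log ‖w ^ (d ^ n)‖
  rw [norm_pow, Real.log_pow]
  nlinarith

/-- the orbit in Böttcher coordinates -/
theorem conj_iter (hd : 2 ≤ d) {Ψ : ℂ → ℂ → ℂ} (hB : Bott d Ψ) {c w : ℂ}
    (hw : w ∈ Dom (green d c 0)) (n : ℕ) : (fc d c)^[n] (Ψ c w) = Ψ c (w ^ (d ^ n)) := by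
  induction n with
  | zero => simp
  | succ n ih =>
    rw [Function.iterate_succ_apply', ih, ← hB.conj c _ (Dom_pow hd hw n), ← pow_mul, ← pow_succ]

theorem norm_pow_tendsto (hd : 2 ≤ d) {w : ℂ} (hw : 1 < ‖w‖) :
    Tendsto (fun n : ℕ => w ^ (d ^ n)) atTop (cobounded ℂ) := by
  rw [← tendsto_norm_atTop_iff_cobounded]
  simp only [norm_pow]
  exact (tendsto_pow_atTop_atTop_of_one_lt hw).comp (pow_atTop hd)

/-- the critical orbit in terms of the exterior map -/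
theorem P_asym (hd : 2 ≤ d) {ψ : ℂ → ℂ} (hψ : IsExteriorMap (multibrotSet d) ψ) {w : ℂ}
    (hw : 1 < ‖w‖) :
    Tendsto (fun n : ℕ => P d (n + 1) (ψ w) / w ^ (d ^ n)) atTop (𝓝 1) := by
  obtain ⟨β, hβ⟩ := exists_beta hd
  obtain ⟨L, hL⟩ := Pool.Agent.Y87.TY.t d β hd hβ
  obtain ⟨hx, hx0⟩ := inv_mem_ball hw
  have hx1 : ‖w⁻¹‖ < 1 := mem_ball_zero_iff.1 hx
  have hw0 : w ≠ 0 := fun h => hx0 (by rw [h, inv_zero])
  have h1 : ∀ n : ℕ, P d (n + 1) (ψ w) / w ^ (d ^ n) = Complex.exp (L n w⁻¹) := by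
    intro n
    rw [hL.exp n _ hx, BB_eq hd β n _ hx0, inv_inv, ← exteriorMap_unique hβ hψ hw, inv_pow]
    field_simp
  have hK : Tendsto (fun n : ℕ => d ^ (n + 1) - 1) atTop atTop := by
    have h2 : Tendsto (fun n : ℕ => d ^ (n + 1)) atTop atTop :=
      (pow_atTop hd).comp (tendsto_add_atTop_nat 1)
    exact (tendsto_sub_atTop_nat 1).comp h2
  have hq : Tendsto (fun n : ℕ => ‖w⁻¹‖ ^ (d ^ (n + 1) - 1)) atTop (𝓝 0) :=
    (tendsto_pow_atTop_nhds_zero_of_lt_one (norm_nonneg _) hx1).comp hK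
  have h2 : Tendsto (fun n : ℕ => 2 * Real.log 2 * ‖w⁻¹‖ ^ (d ^ (n + 1) - 1) /
      (1 - ‖w⁻¹‖ ^ (d ^ (n + 1) - 1))) atTop (𝓝 (2 * Real.log 2 * 0 / (1 - 0))) :=
    (hq.const_mul _).div (hq.const_sub 1) (by norm_num)
  rw [mul_zero, zero_div] at h2
  have h3 : Tendsto (fun n : ℕ => L n w⁻¹) atTop (𝓝 0) :=
    squeeze_zero_norm (fun n => hL.bound n _ hx) h2
  have h4 := (Complex.continuous_exp.tendsto 0).comp h3
  rw [Complex.exp_zero] at h4
  exact h4.congr fun n => (h1 n).symm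

/-- the potential of the critical value -/
theorem green_val (hd : 2 ≤ d) {ψ : ℂ → ℂ} (hψ : IsExteriorMap (multibrotSet d) ψ) {w : ℂ}
    (hw : 1 < ‖w‖) : green d (ψ w) (ψ w) = Real.log ‖w‖ := by
  have h1 := (P_asym hd hψ hw).norm
  rw [norm_one] at h1
  have hw0 : 0 < ‖w‖ := by linarith
  have h2 := rate hd hw (p := fun n => ‖P d (n + 1) (ψ w)‖)
    (b := fun n => ‖P d (n + 1) (ψ w) / w ^ (d ^ n)‖) (fun n => by
      rw [norm_div, norm_pow]
      field_simp) h1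
  have h3 := gap_tendsto hd (ψ w) (ψ w)
  have h4 : gap d (ψ w) (ψ w) = fun n => Real.posLog ‖P d (n + 1) (ψ w)‖ / (d : ℝ) ^ n := by
    funext n
    unfold gap
    rw [iter_c hd]
  rw [h4] at h3
  exact tendsto_nhds_unique h3 h2

theorem green_crit (hd : 2 ≤ d) (hCG : S_CG) {ψ : ℂ → ℂ}
    (hψ : IsExteriorMap (multibrotSet d) ψ) {w : ℂ}
    (hw : 1 < ‖w‖) : green d (ψ w) 0 = Real.log ‖w‖ / d := by
  have h1 := (hCG d hd).2.1 (ψ w) 0
  have h2 : fc d (ψ w) 0 = ψ w := by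
    unfold fc
    rw [zero_pow (by omega), zero_add]
  rw [h2, green_val hd hψ hw] at h1
  have hd0 : (d : ℝ) ≠ 0 := by exact_mod_cast (by omega : d ≠ 0)
  rw [h1]
  field_simp

/-- the Böttcher coordinate of the critical value -/
theorem exists_h (hd : 2 ≤ d) (hCG : S_CG) {Ψ : ℂ → ℂ → ℂ} (hB : Bott d Ψ) {ψ : ℂ → ℂ}
    (hψ : IsExteriorMap (multibrotSet d) ψ) {w : ℂ} (hw : 1 < ‖w‖) :
    ∃ u, u ∈ Dom (green d (ψ w) 0) ∧ Ψ (ψ w) u = ψ w ∧ ‖u‖ = ‖w‖ := by
  have h1 := green_crit hd hCG hψ hw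
  have h2 := green_val hd hψ hw
  have h3 : 0 < Real.log ‖w‖ := Real.log_pos hw
  have hd1 : (1 : ℝ) < d := by exact_mod_cast (by omega : 1 < d)
  have h4 : green d (ψ w) 0 < green d (ψ w) (ψ w) := by
    rw [h1, h2]
    exact div_lt_self h3 hd1
  obtain ⟨u, hu, hu2⟩ := hB.surj (ψ w) (ψ w) h4
  refine ⟨u, hu, hu2, ?_⟩
  have h5 := hB.pot (ψ w) u hu
  rw [hu2, h2] at h5
  have h6 := Dom_norm hd hu
  exact (Real.log_injOn_pos (mem_Ioi.2 (by linarith)) (mem_Ioi.2 (by linarith)) h5).symm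

/-- the quotient is a root of unity -/
theorem quot (hd : 2 ≤ d) {Ψ : ℂ → ℂ → ℂ} (hB : Bott d Ψ) {ψ : ℂ → ℂ}
    (hψ : IsExteriorMap (multibrotSet d) ψ) {w u : ℂ} (hw : 1 < ‖w‖)
    (hu : u ∈ Dom (green d (ψ w) 0)) (hu2 : Ψ (ψ w) u = ψ w) :
    ∃ n : ℕ, (u / w) ^ (d ^ n) = 1 := by
  have hu1 := Dom_norm hd hu
  have hw0 : w ≠ 0 := norm_pos_iff.1 (by linarith)
  have hu0 : u ≠ 0 := norm_pos_iff.1 (by linarith)
  have h1 := P_asym hd hψ hw
  have h2 : Tendsto (fun n : ℕ => P d (n + 1) (ψ w) / u ^ (d ^ n)) atTop (𝓝 1) := by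
    have h3 := (hB.infty (ψ w)).comp (norm_pow_tendsto hd hu1)
    refine h3.congr fun n => ?_
    show Ψ (ψ w) (u ^ d ^ n) / u ^ d ^ n = _
    rw [← conj_iter hd hB hu n, hu2, iter_c hd]
  refine root hd ?_
  have h3 := h1.div h2 one_ne_zero
  rw [div_one] at h3
  refine h3.congr' ?_
  filter_upwards [h1.eventually_ne one_ne_zero] with n hn
  have h4 : P d (n + 1) (ψ w) ≠ 0 := by
    intro hc
    rw [hc, zero_div] at hn
    exact hn rfl
  simp only [Pi.div_apply]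
  rw [div_pow]
  field_simp

theorem bot2 : S_CG → S_BOT2 := by
  intro hCG d Ψ ψ hd hB hψ
  have hd1 : (1 : ℝ) < d := by exact_mod_cast (by omega : 1 < d)
  obtain ⟨S, hS⟩ : ∃ S : Set ℂ, S = {w : ℂ | 1 < ‖w‖} := ⟨_, rfl⟩
  have hSo : IsOpen S := by
    rw [hS]
    exact isOpen_lt continuous_const continuous_norm
  have hex : ∀ w : ℂ, ∃ u, 1 < ‖w‖ →
      (u ∈ Dom (green d (ψ w) 0) ∧ Ψ (ψ w) u = ψ w ∧ ‖u‖ = ‖w‖) := by
    intro w
    by_cases hw : 1 < ‖w‖
    · obtain ⟨u, hu⟩ := exists_h hd hCG hB hψ hw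
      exact ⟨u, fun _ => hu⟩
    · exact ⟨0, fun h => absurd h hw⟩
  choose h hh using hex
  have hψc : ContinuousOn ψ S := by rw [hS]; exact hψ.diff.continuousOn
  -- continuity
  have hcont : ContinuousOn h S := by
    intro w0 hw0
    have hw0' : 1 < ‖w0‖ := by rw [hS] at hw0; exact hw0
    obtain ⟨a1, a2, a3⟩ := hh w0 hw0'
    refine (isCompact_closedBall (0 : ℂ) (‖w0‖ + 1)).tendsto_nhds_of_unique_mapClusterPt ?_ ?_
    · have h1 : ∀ᶠ w in 𝓝[S] w0, ‖w‖ < ‖w0‖ + 1 :=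
        (continuous_norm.continuousWithinAt).eventually_lt_const (by linarith)
      filter_upwards [h1, self_mem_nhdsWithin] with w h2 h3
      rw [hS] at h3
      rw [mem_closedBall_zero_iff, (hh w h3).2.2]
      exact h2.le
    · intro y _ hy
      obtain ⟨F, hF, hFy⟩ := mapClusterPt_iff_ultrafilter.1 hy
      have hFS : ∀ᶠ w in (F : Filter ℂ), w ∈ S := hF self_mem_nhdsWithin
      have hFw : Tendsto (fun w : ℂ => w) F (𝓝 w0) := hF.trans nhdsWithin_le_nhds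
      have hFψ : Tendsto ψ F (𝓝 (ψ w0)) := (hψc w0 hw0).mono_left hF
      have hyn : ‖y‖ = ‖w0‖ := by
        refine tendsto_nhds_unique hFy.norm ?_
        refine hFw.norm.congr' ?_
        filter_upwards [hFS] with w hw
        rw [hS] at hw
        exact (hh w hw).2.2.symm
      have hyD : green d (ψ w0) 0 < Real.log ‖y‖ := by
        rw [hyn, green_crit hd hCG hψ hw0']
        exact div_lt_self (Real.log_pos hw0') hd1
      have h1 : Tendsto (fun w => Ψ (ψ w) (h w)) F (𝓝 (Ψ (ψ w0) y)) := by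
        have h2 := hB.cont (ψ w0, y) hyD
        refine h2.tendsto.comp (tendsto_nhdsWithin_iff.2 ⟨hFψ.prodMk_nhds hFy, ?_⟩)
        filter_upwards [hFS] with w hw
        rw [hS] at hw
        exact (hh w hw).1
      have h2 : Tendsto (fun w => Ψ (ψ w) (h w)) F (𝓝 (ψ w0)) := by
        refine hFψ.congr' ?_
        filter_upwards [hFS] with w hw
        rw [hS] at hw
        exact (hh w hw).2.1.symm
      have h3 := tendsto_nhds_unique h1 h2
      exact hB.inj (ψ w0) hyD a1 (h3.trans a2.symm)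
  -- the quotient is constant
  have hq : ContinuousOn (fun w => h w / w) S := by
    refine hcont.div continuousOn_id fun w hw => ?_
    rw [hS] at hw
    have hw' : 1 < ‖w‖ := hw
    exact norm_pos_iff.1 (show 0 < ‖w‖ by linarith)
  have hconst : ∀ a ∈ S, ∀ b ∈ S, h a / a = h b / b := by
    intro a ha b hb
    refine const (countT hd) (by rw [hS]; exact ext_preconnected) hq (fun z hz => ?_) ha hb
    rw [hS] at hz
    obtain ⟨b1, b2, _⟩ := hh z hz
    exact quot hd hB hψ hz b1 b2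
  intro w hw
  refine ⟨green_crit hd hCG hψ hw, ?_⟩
  have hw0 : w ≠ 0 := norm_pos_iff.1 (by linarith)
  have hwS : w ∈ S := by rw [hS]; exact hw
  have h1 : ∀ ε : ℝ, 0 < ε → ‖h w / w - 1‖ ≤ ε := by
    intro ε hε
    obtain ⟨R, hR⟩ := hB.unif (ε / 2) (by linarith)
    have e1 : ∀ᶠ v in cobounded ℂ, max R 2 ≤ ‖v‖ :=
      tendsto_norm_cobounded_atTop.eventually_ge_atTop _
    have e2 : ∀ᶠ v in cobounded ℂ, ‖ψ v / v - 1‖ < min (ε / 2) (1 / 2) := by
      have h2 := (hψ.infinity.sub_const 1).norm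
      rw [sub_self, norm_zero] at h2
      exact h2.eventually_lt_const (lt_min (by linarith) (by norm_num))
    obtain ⟨v, hv1, hv2⟩ := (e1.and e2).exists
    have hvR := (le_max_left R 2).trans hv1
    have hv2' := (le_max_right R 2).trans hv1
    have hvn : 1 < ‖v‖ := by linarith
    have hv0 : v ≠ 0 := norm_pos_iff.1 (by linarith)
    have hvS : v ∈ S := by rw [hS]; exact hvn
    obtain ⟨b1, b2, b3⟩ := hh v hvn
    have f1 : ‖ψ v - v‖ ≤ min (ε / 2) (1 / 2) * ‖v‖ := by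
      have f2 : ψ v - v = (ψ v / v - 1) * v := by field_simp
      rw [f2, norm_mul]
      gcongr
    have f3 : ‖ψ v - v‖ ≤ ε / 2 * ‖v‖ := f1.trans (by gcongr; exact min_le_left _ _)
    have f4 : ‖ψ v - v‖ ≤ 1 / 2 * ‖v‖ := f1.trans (by gcongr; exact min_le_right _ _)
    have f5 : ‖ψ v‖ ≤ 2 * ‖h v‖ := by
      rw [b3]
      have f6 : ‖ψ v‖ ≤ ‖ψ v - v‖ + ‖v‖ := by
        have := norm_add_le (ψ v - v) v
        rwa [sub_add_cancel] at this
      linarith
    have f7 := (hR (ψ v) (h v) (by rw [b3]; exact hvR) f5).2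
    rw [b2, b3] at f7
    have f8 : ‖h v - v‖ ≤ ε * ‖v‖ := by
      have f9 : h v - v = -(ψ v - h v) + (ψ v - v) := by ring
      rw [f9]
      refine (norm_add_le _ _).trans ?_
      rw [norm_neg]
      linarith
    rw [hconst w hwS v hvS]
    have f10 : h v / v - 1 = (h v - v) / v := by field_simp
    rw [f10, norm_div, div_le_iff₀ (by linarith)]
    exact f8
  have h2 : h w / w = 1 := by
    have h3 : ‖h w / w - 1‖ ≤ 0 := le_of_forall_pos_le_add fun ε hε => by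
      rw [zero_add]
      exact h1 ε hε
    exact sub_eq_zero.1 (norm_le_zero_iff.1 h3)
  have h3 : h w = w := by
    rw [div_eq_one_iff_eq hw0] at h2
    exact h2
  have h4 := (hh w hw).2.1
  rwa [h3] at h4

end Pool.Agent.Y664.LC
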