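import Pool.Agent.Y664.LC.Seq
import Pool.Agent.W810.LP.SpecM
import Pool.Agent.H585R3.AC508

/-!
Many small couplings with bounded solutions, and the null spectrum at coupling one.
-/

set_option autoImplicit false

namespace Pool.Agent.Y664.LC

open Filter Topology MeasureTheory Pool.Agent.Helper434.PSCplx Pool.Agent.H695R3.ST
open Pool.Agent.H508R3 (HE)
open Pool.Agent.W810.LP (per_bdd)

theorem lev_N_pos (k : ℕ) : (1 : ℝ) ≤ (lev k).N := by
  have := (lev k).hN
  exact_mod_cast this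

theorem lev_G_anti : Antitone (fun k => (lev k).G) :=
  antitone_nat_of_succ_le fun k => (lev_rel k).2.2.1

/-- the number `1 / 2 ^ 33` -/
noncomputable def a0 : ℝ := 1 / 2 ^ 33

theorem a0_pos : 0 < a0 := by unfold a0; positivity

theorem box_vol : volume (Set.Ioo 0 (1 / 2 ^ 33) ×ˢ Set.Ioo (-1) 1 : Set (ℝ × ℝ)) =
    ENNReal.ofReal (2 * a0) := by
  rw [Measure.volume_eq_prod, Measure.prod_prod, Real.volume_Ioo, Real.volume_Ioo,
    ← ENNReal.ofReal_mul (by positivity)]
  congr 1
  unfold a0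
  norm_num

theorem lev_G_fin (k : ℕ) : volume (lev k).G ≠ ⊤ := by
  refine ne_top_of_le_ne_top ?_ (measure_mono (lev k).hG.2.1)
  rw [box_vol]
  exact ENNReal.ofReal_ne_top

theorem lev_vol (k : ℕ) : a0 * (1 + 1 / 2 ^ k) ≤ volume.real (lev k).G ∧
    volume.real (lev k).G ≤ a0 * 2 := by
  have ha := a0_pos
  induction k with
  | zero =>
    have : (lev 0).G = Set.Ioo 0 (1 / 2 ^ 33) ×ˢ Set.Ioo (-1) 1 := rfl
    rw [this, Measure.real, box_vol, ENNReal.toReal_ofReal (by positivity)]
    constructor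
    · norm_num
      linarith
    · linarith
  | succ k ih =>
    obtain ⟨-, -, hsub, hvol⟩ := lev_rel k
    have hm := (lev k).hG.1
    have hm' := (lev (k + 1)).hG.1
    have h1 : volume.real ((lev k).G \ (lev (k + 1)).G) =
        volume.real (lev k).G - volume.real (lev (k + 1)).G :=
      measureReal_sdiff hsub hm' (lev_G_fin _)
    have h2 : volume.real ((lev k).G \ (lev (k + 1)).G) ≤ 8 / 2 ^ (k + 5) * volume.real (lev k).G := by
      have h3 := ENNReal.toReal_mono (ENNReal.mul_ne_top ENNReal.ofReal_ne_top (lev_G_fin k)) hvol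
      rw [ENNReal.toReal_mul, ENNReal.toReal_ofReal (by positivity)] at h3
      push_cast at h3
      exact h3
    have h4 : (8 : ℝ) / 2 ^ (k + 5) = 1 / 2 ^ k / 4 := by
      rw [pow_add _ k 5]
      field_simp
      norm_num
    rw [h4] at h2
    have h5 : (1 : ℝ) / 2 ^ (k + 1) = 1 / 2 ^ k / 2 := by
      rw [pow_succ]; field_simp
    obtain ⟨q, hq⟩ : ∃ q : ℝ, q = 1 / 2 ^ k := ⟨_, rfl⟩
    have h7 : (0 : ℝ) < q := by rw [hq]; positivity
    have h8 := @measureReal_nonneg _ _ volume ((lev k).G \ (lev (k + 1)).G)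
    rw [h5]
    rw [← hq] at h2 ih ⊢
    have h9 : q / 4 * volume.real (lev k).G ≤ q / 4 * (a0 * 2) :=
      mul_le_mul_of_nonneg_left ih.2 (by positivity)
    constructor
    · nlinarith [ih.1, ih.2]
    · linarith [ih.2]

/-- the pairs (coupling, energy) which are good at all levels -/
def GG : Set (ℝ × ℝ) := ⋂ k, (lev k).G

theorem GG_meas : MeasurableSet GG := MeasurableSet.iInter fun k => (lev k).hG.1

theorem GG_vol : ENNReal.ofReal a0 ≤ volume GG := by
  have hlim := tendsto_measure_iInter_atTop (μ := volume) (s := fun k => (lev k).G)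
    (fun k => (lev k).hG.1.nullMeasurableSet) lev_G_anti ⟨0, lev_G_fin 0⟩
  have hge : ∀ k, ENNReal.ofReal a0 ≤ (volume ∘ fun k => (lev k).G) k := by
    intro k
    simp only [Function.comp]
    rw [← ENNReal.ofReal_toReal (lev_G_fin k)]
    apply ENNReal.ofReal_le_ofReal
    have h1 := (lev_vol k).1
    have h3 : (0 : ℝ) ≤ 1 / 2 ^ k := by positivity
    have h4 : (volume (lev k).G).toReal = volume.real (lev k).G := rfl
    rw [h4]
    nlinarith [a0_pos]
  exact ge_of_tendsto' hlim hge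

/-- the good couplings -/
def AA : Set ℝ := {a | volume (Prod.mk a ⁻¹' GG) ≠ 0}

theorem AA_meas : MeasurableSet AA :=
  (measurable_measure_prodMk_left GG_meas) (measurableSet_singleton 0).compl

theorem GG_sub {a e : ℝ} (h : (a, e) ∈ GG) : a ∈ Set.Ioo (0 : ℝ) a0 ∧ e ∈ Set.Ioo (-1 : ℝ) 1 :=
  (lev 0).hG.2.1 (Set.mem_iInter.mp h 0)

theorem AA_sub : AA ⊆ Set.Ioo 0 a0 := by
  intro a ha
  by_contra hcon
  apply ha
  have : Prod.mk a ⁻¹' GG = ∅ := by
    rw [Set.eq_empty_iff_forall_notMem]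
    intro e he
    exact hcon (GG_sub he).1
  rw [this, measure_empty]

theorem AA_vol : ENNReal.ofReal (a0 / 2) ≤ volume AA := by
  have h1 : volume GG ≤ 2 * volume AA := by
    rw [Measure.volume_eq_prod, Measure.prod_apply GG_meas]
    calc ∫⁻ a, volume (Prod.mk a ⁻¹' GG) ≤ ∫⁻ a, AA.indicator (fun _ => 2) a := by
          refine lintegral_mono fun a => ?_
          by_cases ha : a ∈ AA
          · rw [Set.indicator_of_mem ha]
            calc volume (Prod.mk a ⁻¹' GG) ≤ volume (Set.Ioo (-1 : ℝ) 1) :=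
                  measure_mono fun e he => (GG_sub he).2
              _ = 2 := by rw [Real.volume_Ioo]; norm_num
          · rw [Set.indicator_of_notMem ha]
            simp only [AA, Set.mem_ofPred_eq, not_not] at ha
            rw [ha]
      _ = 2 * volume AA := by rw [lintegral_indicator_const AA_meas]
  have h2 := GG_vol.trans h1
  have h3 : ENNReal.ofReal a0 = 2 * ENNReal.ofReal (a0 / 2) := by
    rw [← ENNReal.ofReal_ofNat 2, ← ENNReal.ofReal_mul (by norm_num)]
    congr 1
    ring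
  rw [h3] at h2
  exact (ENNReal.mul_le_mul_iff_right (by norm_num) (by norm_num)).1 h2

/-- energies with bounded solutions at the good small couplings -/
theorem ac_set {a : ℝ} (ha : a ∈ AA) : ∃ S : Set ℝ, MeasurableSet S ∧ volume S ≠ 0 ∧ ∀ E ∈ S,
    ∀ u : ℤ → ℝ, (∀ n, HE (fun n => a * VV n) E u n = 0) →
    ∀ n, u n ^ 2 + u (n + 1) ^ 2 ≤ 4 * 4 ^ 2 * (u 0 ^ 2 + u 1 ^ 2) := by
  refine ⟨Prod.mk a ⁻¹' GG, measurable_prodMk_left GG_meas, ha, ?_⟩
  intro E hE u hu n
  apply Pool.Agent.H508R3.bounded_of_approx (fun n => a * VV n) E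
    (fun k n => a * (lev k).V n) (fun _ => E) (fun n => (lev_tendsto n).const_mul _)
    tendsto_const_nhds 4 _ u hu n
  intro k
  obtain ⟨z, w, hw, -⟩ := (lev k).hG.2.2 (a, E) (Set.mem_iInter.mp hE k)
  refine ⟨(lev k).N, z, w, hw.eq, hw.per, hw.unit, hw.wron, fun n => (hw.bd n).trans ?_⟩
  have : (0 : ℝ) ≤ 1 / 2 ^ k := by positivity
  linarith

/-- the spectrum at coupling `1` is a null set -/
theorem null_spec {H : L2 →L[ℂ] L2} (hH : IsSchr VV H) : volume (spectrum ℝ H) = 0 := by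
  have hs := schr_sa VV_bdd hH
  have key : ∀ k : ℕ, volume (spectrum ℝ H) ≤ ENNReal.ofReal (8 * (1 / 2) ^ k + 80 * (1 / 8) ^ k) := by
    intro k
    obtain ⟨η, hη⟩ : ∃ η : ℝ, η = 64 / 7 * (1 / 8) ^ k / (lev k).N := ⟨_, rfl⟩
    have hN := lev_N_pos k
    have hη0 : 0 < η := by rw [hη]; positivity
    obtain ⟨K, hK⟩ := per_bdd (lev k).hN (lev k).hV
    obtain ⟨Hk, hHk, hHks⟩ := exists_schr hK
    have hsub : spectrum ℝ H ⊆ ⋃ c ∈ (lev k).C,
        Set.Icc (c - ((lev k).κ + 2 * η)) (c + ((lev k).κ + 2 * η)) := by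
      intro E hE
      obtain ⟨ψ, hψ0, hψ⟩ := weyl_fwd hs hE hη0
      have hdiff : ‖Hk ψ - H ψ‖ ≤ η * ‖ψ‖ := by
        apply le_of_sq_le_sq _ (by positivity)
        have hpt : ∀ n, ‖(Hk ψ - H ψ) n‖ ^ 2 ≤ η ^ 2 * ‖ψ n‖ ^ 2 := by
          intro n
          rw [lp.coeFn_sub, Pi.sub_apply, hHk, hH]
          have e : ψ (n + 1) + ψ (n - 1) + ((lev k).V n : ℂ) * ψ n -
              (ψ (n + 1) + ψ (n - 1) + (VV n : ℂ) * ψ n) = -(((VV n - (lev k).V n : ℝ) : ℂ) * ψ n) := by
            push_cast; ring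
          rw [e, norm_neg, norm_mul, Complex.norm_real, Real.norm_eq_abs, mul_pow]
          have h1 := VV_near k n
          rw [← hη] at h1
          gcongr
        have := hasSum_le hpt (hasSum_sq _) ((hasSum_sq ψ).mul_left (η ^ 2))
        rw [mul_pow]
        exact this
      have h2 : ‖Hk ψ - (E : ℂ) • ψ‖ ≤ (2 * η) * ‖ψ‖ := by
        have e : Hk ψ - (E : ℂ) • ψ = (Hk ψ - H ψ) + (H ψ - (E : ℂ) • ψ) := by abel
        rw [e]
        refine (norm_add_le _ _).trans ?_
        linarith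
      obtain ⟨E', hE', h3⟩ := weyl_bwd hHks hψ0 h2
      obtain ⟨c, hc, h4⟩ := (lev k).hnear Hk hHk E' hE'
      simp only [Set.mem_iUnion]
      refine ⟨c, hc, ?_⟩
      have h5 := abs_le.1 h3
      have h6 := abs_le.1 h4
      constructor <;> linarith
    have hκ0 := (lev k).hκ0
    calc volume (spectrum ℝ H) ≤ _ := measure_mono hsub
      _ ≤ ∑ c ∈ (lev k).C, volume (Set.Icc (c - ((lev k).κ + 2 * η)) (c + ((lev k).κ + 2 * η))) :=
          measure_biUnion_finset_le _ _
      _ = ∑ c ∈ (lev k).C, ENNReal.ofReal (2 * ((lev k).κ + 2 * η)) := by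
          refine Finset.sum_congr rfl fun c _ => ?_
          rw [Real.volume_Icc]
          congr 1
          ring
      _ = ENNReal.ofReal (((lev k).C.card : ℝ) * (2 * ((lev k).κ + 2 * η))) := by
          rw [Finset.sum_const, nsmul_eq_mul,
            ENNReal.ofReal_mul (p := ((lev k).C.card : ℝ)) (by positivity),
            ENNReal.ofReal_natCast]
      _ ≤ _ := by
          apply ENNReal.ofReal_le_ofReal
          have hc : ((lev k).C.card : ℝ) ≤ 2 * (lev k).N := by exact_mod_cast (lev k).hC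
          have h7 := (lev k).hκ
          have h8 : ((lev k).N : ℝ) * η = 64 / 7 * (1 / 8) ^ k := by
            rw [hη]; field_simp
          have h9 : (0 : ℝ) < (1 / 8) ^ k := by positivity
          calc ((lev k).C.card : ℝ) * (2 * ((lev k).κ + 2 * η)) ≤
              (2 * (lev k).N) * (2 * ((lev k).κ + 2 * η)) := by gcongr
            _ = 4 * ((lev k).N * (lev k).κ) + 8 * ((lev k).N * η) := by ring
            _ ≤ _ := by rw [h8]; linarith
  have hlim : Tendsto (fun k : ℕ => ENNReal.ofReal (8 * (1 / 2) ^ k + 80 * (1 / 8) ^ k)) atTop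
      (𝓝 (ENNReal.ofReal (8 * 0 + 80 * 0))) := by
    apply ENNReal.tendsto_ofReal
    exact ((tendsto_pow_atTop_nhds_zero_of_lt_one (by norm_num) (by norm_num)).const_mul 8).add
      ((tendsto_pow_atTop_nhds_zero_of_lt_one (by norm_num) (by norm_num)).const_mul 80)
  have := ge_of_tendsto' hlim key
  simpa using this

end Pool.Agent.Y664.LC
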