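import Pool.Agent.H54R3.Meas508

/-!
The good energies of a periodic potential for many small couplings at the same time.
-/

set_option autoImplicit false

open MeasureTheory Filter Topology

namespace Pool.Agent.Y664.LC

section

open Pool.Agent.H54R3.Meas508

theorem good_gen {X : Type} [MeasurableSpace X] (ν : Measure X) (θ : X → ℝ) (hθ : Measurable θ) (S : Set X) (hS : MeasurableSet S) (hfin : ν S ≠ ⊤) (hirr : ∀ r : ℕ, 1 ≤ r → ν {e ∈ S | Real.sin (2 * r * θ e) = 0} = 0) (n : ℕ) (hn : 1 ≤ n) (m0 : ℕ) : ∃ m : ℕ, m0 ≤ m ∧ ν {e ∈ S | |Real.sin ((2 * m + 1) * θ e)| < 1 / (4 * n)} ≤ ENNReal.ofReal (8 / n) * ν S := by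
  by_cases h0 : ν S = 0
  · refine ⟨m0, le_rfl, ?_⟩
    have : ν {e ∈ S | |Real.sin ((2 * m0 + 1) * θ e)| < 1 / (4 * n)} = 0 :=
      measure_mono_null (fun e he => he.1) h0
    rw [this]
    exact bot_le
  have hn' : (0 : ℝ) < n := by exact_mod_cast hn
  set μ : Measure X := ν.restrict S with hμ
  have hfinm : IsFiniteMeasure μ := ⟨by rw [hμ, Measure.restrict_apply_univ]; exact lt_top_iff_ne_top.mpr hfin⟩
  have hpos : 0 < (ν S).toReal := ENNReal.toReal_pos h0 hfin
  have hint : ∀ m : ℕ, Integrable (fun e => FF n ((2 * (m : ℝ) + 1) * θ e)) μ := by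
    intro m
    refine Integrable.of_bound (C := n) ?_ ?_
    · exact ((FF_cont n).measurable.comp (measurable_const.mul hθ)).aestronglyMeasurable
    · refine Eventually.of_forall (fun e => ?_)
      rw [Real.norm_eq_abs, abs_of_nonneg (FF_nonneg _ _)]
      exact FF_le hn _
  have hlim : Tendsto (fun M => ∫ e, AA n m0 M (θ e) ∂μ) atTop (𝓝 (∫ _e : X, (1 : ℝ) ∂μ)) := by
    refine tendsto_integral_of_dominated_convergence (fun _ => (n : ℝ)) ?_ ?_ ?_ ?_
    · intro M
      unfold AA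
      refine Measurable.aestronglyMeasurable ?_
      refine measurable_const.mul (Finset.measurable_sum _ (fun m _ => ?_))
      exact (FF_cont n).measurable.comp (measurable_const.mul hθ)
    · exact integrable_const _
    · intro M
      refine Eventually.of_forall (fun e => ?_)
      unfold AA
      rw [Real.norm_eq_abs, abs_of_nonneg (mul_nonneg (by positivity) (Finset.sum_nonneg (fun m _ => FF_nonneg _ _)))]
      rcases Nat.eq_zero_or_pos M with rfl | hM
      · simp
      · have hM' : (0 : ℝ) < M := by exact_mod_cast hM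
        calc (1 / (M : ℝ)) * ∑ m ∈ Finset.range M, FF n ((2 * ((m0 + m : ℕ) : ℝ) + 1) * θ e)
            ≤ (1 / (M : ℝ)) * ∑ m ∈ Finset.range M, (n : ℝ) := by
              gcongr
              exact FF_le hn _
          _ = n := by simp; field_simp
    · have hae : ∀ r : ℕ, ∀ᵐ e ∂μ, 1 ≤ r → Real.sin (2 * r * θ e) ≠ 0 := by
        intro r
        by_cases hr : 1 ≤ r
        · rw [hμ, ae_restrict_iff' hS]
          have h1 : ν {e | ¬ (e ∈ S → 1 ≤ r → Real.sin (2 * r * θ e) ≠ 0)} = 0 := by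
            refine measure_mono_null ?_ (hirr r hr)
            intro e he
            simp only [Set.mem_ofPred_eq, not_forall, not_not] at he
            obtain ⟨h1, _, h3⟩ := he
            exact ⟨h1, h3⟩
          exact h1
        · exact Eventually.of_forall (fun e h => absurd h hr)
      filter_upwards [ae_all_iff.mpr hae] with e he
      exact AA_lim hn m0 he
  rw [integral_const, smul_eq_mul, mul_one] at hlim
  have hreal : μ.real Set.univ = (ν S).toReal := by
    rw [measureReal_def, hμ, Measure.restrict_apply_univ]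
  rw [hreal] at hlim
  have hev := (hlim.eventually (gt_mem_nhds (show (ν S).toReal < 2 * (ν S).toReal by linarith))).and
    (eventually_ge_atTop 1)
  obtain ⟨M, hM1, hM2⟩ := hev.exists
  have hM' : (0 : ℝ) < M := by exact_mod_cast hM2
  obtain ⟨m, hm⟩ : ∃ m : ℕ, ∫ e, FF n ((2 * ((m0 + m : ℕ) : ℝ) + 1) * θ e) ∂μ ≤ 2 * (ν S).toReal := by
    by_contra hcon
    push Not at hcon
    have h1 : ∫ e, AA n m0 M (θ e) ∂μ = (1 / (M : ℝ)) * ∑ m ∈ Finset.range M,
        ∫ e, FF n ((2 * ((m0 + m : ℕ) : ℝ) + 1) * θ e) ∂μ := by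
      unfold AA
      rw [integral_const_mul, integral_finsetSum _ (fun m _ => hint (m0 + m))]
    have h2 : ∑ m ∈ Finset.range M, 2 * (ν S).toReal ≤ ∑ m ∈ Finset.range M,
        ∫ e, FF n ((2 * ((m0 + m : ℕ) : ℝ) + 1) * θ e) ∂μ :=
      Finset.sum_le_sum (fun m _ => (hcon m).le)
    rw [h1] at hM1
    have h3 : (1 / (M : ℝ)) * ∑ m ∈ Finset.range M, 2 * (ν S).toReal = 2 * (ν S).toReal := by
      simp; field_simp
    have h4 : (1 / (M : ℝ)) * ∑ m ∈ Finset.range M, 2 * (ν S).toReal ≤ (1 / (M : ℝ)) * ∑ m ∈ Finset.range M,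
        ∫ e, FF n ((2 * ((m0 + m : ℕ) : ℝ) + 1) * θ e) ∂μ := by gcongr
    linarith
  refine ⟨m0 + m, Nat.le_add_right _ _, ?_⟩
  have hmark := mul_meas_ge_le_integral_of_nonneg (μ := μ)
    (f := fun e => FF n ((2 * ((m0 + m : ℕ) : ℝ) + 1) * θ e))
    (Eventually.of_forall (fun e => FF_nonneg _ _)) (hint (m0 + m)) ((n : ℝ) / 4)
  set Bad : Set X := {e ∈ S | |Real.sin ((2 * ((m0 + m : ℕ) : ℝ) + 1) * θ e)| < 1 / (4 * n)} with hBad
  have hsub : ν Bad ≤ μ {e | (n : ℝ) / 4 ≤ FF n ((2 * ((m0 + m : ℕ) : ℝ) + 1) * θ e)} := by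
    rw [hμ, Measure.restrict_apply' hS]
    refine measure_mono ?_
    intro e he
    exact ⟨FF_big hn he.2, he.1⟩
  set q := μ {e | (n : ℝ) / 4 ≤ FF n ((2 * ((m0 + m : ℕ) : ℝ) + 1) * θ e)} with hq
  have hqfin : q ≠ ⊤ := measure_ne_top _ _
  have h5 : (n : ℝ) / 4 * q.toReal ≤ 2 * (ν S).toReal := hmark.trans hm
  have h6 : q.toReal ≤ 8 / n * (ν S).toReal := by
    have h7 : q.toReal = (4 / n) * ((n : ℝ) / 4 * q.toReal) := by field_simp
    rw [h7]
    calc (4 / (n : ℝ)) * ((n : ℝ) / 4 * q.toReal) ≤ (4 / n) * (2 * (ν S).toReal) := by gcongr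
      _ = 8 / n * (ν S).toReal := by ring
  refine hsub.trans ?_
  rw [← ENNReal.ofReal_toReal hqfin, ← ENNReal.ofReal_toReal hfin, ← ENNReal.ofReal_mul (by positivity)]
  exact ENNReal.ofReal_le_ofReal h6


end

end Pool.Agent.Y664.LC
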