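import Pool.Agent.W810.LP.GStep
import Pool.Agent.Y664.LC.Gen

/-!
The induction step for the good pairs (coupling, energy).
-/

set_option autoImplicit false

namespace Pool.Agent.Y664.LC

open Complex Pool.Agent.H508R3 ComplexConjugate MeasureTheory Pool.Agent.W810.LP

/-- the good pairs (coupling, energy) at level `k` -/
def Good2 (V : ℤ → ℝ) (N k : ℕ) (G : Set (ℝ × ℝ)) : Prop :=
  MeasurableSet G ∧ G ⊆ Set.Ioo 0 (1 / 2 ^ 33) ×ˢ Set.Ioo (-1) 1 ∧ ∀ p ∈ G,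
    ∃ (z : ℂ) (w : ℤ → ℂ),
    Bloch (fun n => p.1 * V n) p.2 N z w (2 * (2 - 1 / 2 ^ k)) ∧ 1 / 2 ^ (k + 7) ≤ |z.im|

theorem pol_cont (V : ℤ → ℝ) (x y : ℝ) (N : ℕ) :
    Continuous (fun p : ℝ × ℝ => ((pol (fun n => p.1 * V n) x y N).1).eval p.2) ∧
    Continuous (fun p : ℝ × ℝ => ((pol (fun n => p.1 * V n) x y N).2).eval p.2) := by
  induction N with
  | zero =>
    simp only [pol, Polynomial.eval_C]
    exact ⟨continuous_const, continuous_const⟩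
  | succ N ih =>
    simp only [pol, Polynomial.eval_sub, Polynomial.eval_mul, Polynomial.eval_X,
      Polynomial.eval_C]
    refine ⟨?_, ih.1⟩
    exact ((continuous_snd.sub (continuous_fst.mul continuous_const)).mul ih.1).sub ih.2

theorem trp_cont (V : ℤ → ℝ) (N : ℕ) :
    Continuous (fun p : ℝ × ℝ => (trp (fun n => p.1 * V n) N).eval p.2) := by
  simp only [trp, Polynomial.eval_add]
  exact (pol_cont V 1 0 N).1.add (pol_cont V 0 1 N).2

/-- the phase -/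
noncomputable def phi2 (V : ℤ → ℝ) (N : ℕ) (ε : ℝ) (p : ℝ × ℝ) : ℝ :=
  Real.arccos ((trp (fun n => p.1 * V n) N).eval p.2 / 2) +
    Real.arccos ((trp (fun n => p.1 * V n) N).eval (p.2 - p.1 * ε) / 2)

theorem phi2_meas (V : ℤ → ℝ) (N : ℕ) (ε : ℝ) : Measurable (phi2 V N ε) := by
  unfold phi2
  refine Measurable.add ?_ ?_
  · exact Real.measurable_arccos.comp ((trp_cont V N).measurable.div_const 2)
  · refine Real.measurable_arccos.comp (Measurable.div_const ?_ 2)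
    have h : Continuous (fun p : ℝ × ℝ => (p.1, p.2 - p.1 * ε)) :=
      continuous_fst.prodMk (continuous_snd.sub (continuous_fst.mul continuous_const))
    exact ((trp_cont V N).comp h).measurable

theorem nums2 (k N : ℕ) (hN : 0 < N) (ε : ℝ) (hε0 : 0 < ε) (hε : ε ≤ 8 * (1 / 8) ^ k / N)
    (a : ℝ) (ha0 : 0 < a) (ha1 : a ≤ 1 / 2 ^ 33) (x : ℝ)
    (hx : x = N * (a * ε * (2 * (2 - 1 / 2 ^ k)))) :
    0 ≤ x ∧ 16 * x ≤ 1 / 2 ^ (k + 7) ∧ 100 * (x / (1 / 2 ^ (k + 7))) ≤ 1 / 2 ^ (k + 7) ∧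
    2 * (2 - 1 / 2 ^ k) * (1 + 70 * (x / (1 / 2 ^ (k + 7)) / (1 / 2 ^ (k + 7)))) ≤
      2 * (2 - 1 / 2 ^ (k + 1)) := by
  obtain ⟨x0, hx0⟩ : ∃ x0 : ℝ, x0 = N * (1 / 2 ^ 33 * ε * (2 * (2 - 1 / 2 ^ k))) := ⟨_, rfl⟩
  obtain ⟨-, n1, n2, n3⟩ := nums k N hN ε hε0 hε x0 hx0
  have hq1 : (1 : ℝ) / 2 ^ k ≤ 1 := by
    rw [div_le_one (by positivity)]
    exact one_le_pow₀ (by norm_num)
  have hB : (0 : ℝ) ≤ 2 * (2 - 1 / 2 ^ k) := by linarith
  have hx1 : x ≤ x0 := by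
    rw [hx, hx0]
    gcongr
  have hxn : 0 ≤ x := by rw [hx]; positivity
  refine ⟨hxn, ?_, ?_, ?_⟩
  · linarith
  · refine le_trans ?_ n2
    gcongr
  · refine le_trans ?_ n3
    gcongr

theorem good_step2 (k N : ℕ) (hN : 0 < N) (V : ℤ → ℝ) (hV : ∀ n : ℤ, V (n + N) = V n) (ε : ℝ)
    (hε0 : 0 < ε) (hε : ε ≤ 8 * (1 / 8) ^ k / N) (G : Set (ℝ × ℝ)) (hG : Good2 V N k G)
    (m0 : ℕ) : ∃ m : ℕ, m0 ≤ m ∧ ∃ G' : Set (ℝ × ℝ), G' ⊆ G ∧
      volume (G \ G') ≤ ENNReal.ofReal (8 / ((2 ^ (k + 5) : ℕ) : ℝ)) * volume G ∧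
      ∀ V' : ℤ → ℝ, (∀ n : ℤ, V' (n + (2 * (2 * m + 1) * N : ℕ)) = V' n) →
        (∀ n : ℤ, 0 ≤ n → n < ((2 * m + 1) * N : ℕ) → V' n = V n) →
        (∀ n : ℤ, ((2 * m + 1) * N : ℕ) ≤ n → n < (2 * (2 * m + 1) * N : ℕ) → V' n = V n + ε) →
        Good2 V' (2 * (2 * m + 1) * N) (k + 1) G' := by
  obtain ⟨hGm, hGs, hGb⟩ := hG
  obtain ⟨B, hB⟩ : ∃ B : ℝ, B = 2 * (2 - 1 / 2 ^ k) := ⟨_, rfl⟩
  obtain ⟨ρ, hρ⟩ : ∃ ρ : ℝ, ρ = 1 / 2 ^ (k + 7) := ⟨_, rfl⟩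
  have hρ0 : 0 < ρ := by rw [hρ]; positivity
  have hρ1 : ρ ≤ 1 := by
    rw [hρ, div_le_one (by positivity)]
    exact one_le_pow₀ (by norm_num)
  set φ := phi2 V N ε with hφ
  have hφm : Measurable φ := phi2_meas V N ε
  have hirr : ∀ r : ℕ, 1 ≤ r → volume {p ∈ G | Real.sin (2 * r * φ p) = 0} = 0 := by
    intro r hr
    have hms : MeasurableSet {p ∈ G | Real.sin (2 * r * φ p) = 0} := by
      apply hGm.inter
      exact (Real.measurable_sin.comp (hφm.const_mul _)) (measurableSet_singleton 0)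
    rw [Measure.volume_eq_prod, Measure.measure_prod_null hms]
    refine Filter.Eventually.of_forall fun a => ?_
    by_cases haI : a ∈ Set.Ioo (0 : ℝ) (1 / 2 ^ 33)
    · have ht0 : 0 < a * ε := mul_pos haI.1 hε0
      have hUp : ∀ n : ℤ, (fun n => a * V n) (n + N) = (fun n => a * V n) n := by
        intro n
        simp only [hV n]
      refine measure_mono_null ?_ (null_two (trp (fun n => a * V n) N)
        (trp_natDegree (fun n => a * V n) N hN) (a * ε) ht0.ne' r hr)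
      rintro e ⟨he, hs⟩
      obtain ⟨z, w, hw, hz⟩ := hGb (a, e) he
      obtain ⟨x, hx⟩ : ∃ x : ℝ, x = N * (a * ε * B) := ⟨_, rfl⟩
      obtain ⟨n0, n1, n2, n3⟩ := nums2 k N hN ε hε0 hε a haI.1 haI.2.le x (by rw [hx, hB])
      rw [← hρ] at hz n1
      rw [← hB] at hw
      obtain ⟨z₁, X, Y, w₁, hw₁, -⟩ := shift_step (fun n => a * V n) e N hN hUp (a * ε) ρ B x z w
        hw ht0.le hρ0 hz hx n1 (-1)
      have hz1 : ∀ z : ℂ, ‖z‖ = 1 → |2 * z.re| ≤ 2 := by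
        intro z hz
        rw [abs_mul, abs_two]
        have := Complex.abs_re_le_norm z
        linarith
      refine ⟨?_, ?_, hs⟩
      · rw [trp_eval hw]
        exact hz1 z hw.unit
      · rw [trp_eval (bloch_shift hw₁)]
        exact hz1 z₁ hw₁.unit
    · have : Prod.mk a ⁻¹' {p ∈ G | Real.sin (2 * r * φ p) = 0} = ∅ := by
        rw [Set.eq_empty_iff_forall_notMem]
        rintro e ⟨he, -⟩
        exact haI (hGs he).1
      change volume (Prod.mk a ⁻¹' {p ∈ G | Real.sin (2 * r * φ p) = 0}) = 0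
      rw [this, measure_empty]
  have hGfin : volume G ≠ ⊤ := by
    refine ne_top_of_le_ne_top ?_ (measure_mono hGs)
    rw [Measure.volume_eq_prod, Measure.prod_prod, Real.volume_Ioo, Real.volume_Ioo]
    exact ENNReal.mul_ne_top ENNReal.ofReal_ne_top ENNReal.ofReal_ne_top
  obtain ⟨m, hm, hvol⟩ := good_gen volume φ hφm G hGm hGfin hirr
    (2 ^ (k + 5)) Nat.one_le_two_pow m0
  set Bad : Set (ℝ × ℝ) :=
    {p | |Real.sin ((2 * m + 1) * φ p)| < 1 / (4 * ((2 ^ (k + 5) : ℕ) : ℝ))} with hBad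
  have hBadm : MeasurableSet Bad := by
    apply measurableSet_lt _ measurable_const
    exact ((Real.measurable_sin.comp (hφm.const_mul _))).abs
  refine ⟨m, hm, G \ Bad, Set.sdiff_subset, ?_, ?_⟩
  · refine (measure_mono ?_).trans hvol
    rintro e ⟨he1, he2⟩
    refine ⟨he1, ?_⟩
    by_contra hcon
    exact he2 ⟨he1, hcon⟩
  · intro V' hp h1 h2
    refine ⟨hGm.diff hBadm, Set.sdiff_subset.trans hGs, ?_⟩
    rintro ⟨a, e⟩ ⟨he, heb⟩
    obtain ⟨z, w, hw, hz⟩ := hGb (a, e) he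
    have haI : a ∈ Set.Ioo (0 : ℝ) (1 / 2 ^ 33) := (hGs he).1
    have ht0 : 0 < a * ε := mul_pos haI.1 hε0
    have hUp : ∀ n : ℤ, (fun n => a * V n) (n + N) = (fun n => a * V n) n := by
      intro n
      simp only [hV n]
    obtain ⟨x, hx⟩ : ∃ x : ℝ, x = N * (a * ε * B) := ⟨_, rfl⟩
    obtain ⟨n0, n1, n2, n3⟩ := nums2 k N hN ε hε0 hε a haI.1 haI.2.le x (by rw [hx, hB])
    rw [← hρ] at hz n1 n2 n3
    rw [← hB] at hw n3
    obtain ⟨z₁, w₁, hw₁, hs, hfin⟩ := two_block (fun n => a * V n) (fun n => a * V' n) e N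
      (2 * m + 1) hN
      (Nat.succ_pos _) hUp (fun n => by simp only [hp n]) (a * ε) ρ ρ B x z w hw
      (fun n h3 h4 => by simp only [h1 n h3 h4])
      (fun n h3 h4 => by simp only [h2 n h3 h4]; ring) ht0.le hρ0 hz hx n1 hρ0 n2 hρ1
    have hbig : ρ ≤ |((z * z₁) ^ (2 * m + 1)).im| := by
      rw [im_pow2 z z₁ hw.unit hw₁.unit hs]
      have e1 : z.re = (trp (fun n => a * V n) N).eval e / 2 := by rw [trp_eval hw]; ring
      have e2 : z₁.re = (trp (fun n => a * V n) N).eval (e - a * ε) / 2 := by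
        rw [trp_eval (bloch_shift hw₁)]; ring
      rw [e1, e2]
      simp only [hBad, Set.mem_ofPred_eq, not_lt] at heb
      have e3 : (1 : ℝ) / (4 * ((2 ^ (k + 5) : ℕ) : ℝ)) = ρ := by
        rw [hρ]
        push_cast
        rw [show k + 7 = (k + 5) + 2 by ring, pow_add _ (k + 5) 2]
        norm_num
        ring
      rw [e3] at heb
      push_cast
      exact heb
    obtain ⟨z', w', hw', hz'⟩ := hfin hbig
    refine ⟨z', w', ?_, ?_⟩
    · exact ⟨hw'.eq, hw'.per, hw'.unit, hw'.wron, fun n => (hw'.bd n).trans n3⟩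
    · refine le_trans (le_of_eq ?_) hz'
      rw [hρ, show k + 1 + 7 = (k + 7) + 1 by ring, pow_succ]
      field_simp

theorem good_zero2 : Good2 (fun _ => 0) 1 0 (Set.Ioo 0 (1 / 2 ^ 33) ×ˢ Set.Ioo (-1) 1) := by
  refine ⟨measurableSet_Ioo.prod measurableSet_Ioo, le_rfl, ?_⟩
  rintro ⟨a, e⟩ ⟨-, he⟩
  obtain ⟨z, w, hw, hz⟩ := good_zero.2.2 e he
  refine ⟨z, w, ?_, hz⟩
  have h : (fun n : ℤ => (a, e).1 * (fun _ : ℤ => (0 : ℝ)) n) =
      fun n : ℤ => 1 / 2 ^ 33 * (fun _ : ℤ => (0 : ℝ)) n := by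
    funext n
    simp
  rw [h]
  exact hw

end Pool.Agent.Y664.LC
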