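import Pool.Agent.W810.LP.Seq
import Pool.Agent.Y664.LC.Step

/-!
The sequence of periodic potentials, with good pairs (coupling, energy) instead of good energies.
-/

set_option autoImplicit false

namespace Pool.Agent.Y664.LC

open Filter Topology MeasureTheory Pool.Agent.Helper434.PSCplx Pool.Agent.H695R3.ST
open Pool.Agent.W810.LP (Near Sep large_J barrier_step choose_eps sep_of_near free_near per_nat)

/-- the data at level `k` -/
structure St (k : ℕ) where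
  N : ℕ
  V : ℤ → ℝ
  ε : ℝ
  G : Set (ℝ × ℝ)
  d : ℝ
  C : Finset ℝ
  κ : ℝ
  hN : 0 < N
  hV : ∀ n : ℤ, V (n + N) = V n
  hε0 : 0 < ε
  hε : ε ≤ 8 * (1 / 8) ^ k / N
  hG : Good2 V N k G
  hd0 : 0 < d
  hd1 : d ≤ 1
  hsep : Sep V ε d
  hκ0 : 0 ≤ κ
  hC : C.card ≤ 2 * N
  hκ : N * κ ≤ 2 * (1 / 2) ^ k
  hnear : Near V C κ

/-- relation of consecutive levels -/
def Rel {k : ℕ} (s : St k) (s' : St (k + 1)) : Prop :=
  2 * s.N ≤ s'.N ∧ (∀ n, s.V n ≤ s'.V n ∧ s'.V n ≤ s.V n + s.ε) ∧ s'.G ⊆ s.G ∧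
    volume (s.G \ s'.G) ≤ ENNReal.ofReal (8 / ((2 ^ (k + 5) : ℕ) : ℝ)) * volume s.G

theorem exists_next {k : ℕ} (s : St k) : ∃ s' : St (k + 1), Rel s s' := by
  obtain ⟨J0, hJ0⟩ := large_J s.N s.hN s.d s.hd0 (16 * 8 ^ k)
  obtain ⟨m, hm, G', hG'1, hG'2, hG'3⟩ := good_step2 k s.N s.hN s.V s.hV s.ε s.hε0 s.hε s.G s.hG
    (max J0 2)
  have hm1 : J0 ≤ m := (le_max_left _ _).trans hm
  have hm2 : 2 ≤ m := (le_max_right _ _).trans hm
  obtain ⟨J, hJ⟩ : ∃ J : ℕ, J = 2 * m + 1 := ⟨_, rfl⟩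
  rw [← hJ] at hG'3
  have hN := s.hN
  obtain ⟨M, hM⟩ : ∃ M : ℕ, M = 2 * J * s.N := ⟨_, rfl⟩
  obtain ⟨L, hL⟩ : ∃ L : ℕ, L = J * s.N := ⟨_, rfl⟩
  have hML : M = 2 * L := by rw [hM, hL]; ring
  have hL1 : s.N ≤ L := by rw [hL]; exact Nat.le_mul_of_pos_left s.N (by omega)
  have hM0 : (0 : ℤ) < M := by omega
  set V' : ℤ → ℝ := fun n => if n % (M : ℤ) < L then s.V n else s.V n + s.ε with hV'
  have hVM : ∀ n : ℤ, s.V (n + M) = s.V n := by
    intro n
    rw [hM]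
    exact per_nat s.hV n (2 * J)
  have hp : ∀ n : ℤ, V' (n + M) = V' n := by
    intro n
    simp only [hV', Int.add_emod_right, hVM n]
  have h1 : ∀ n : ℤ, 0 ≤ n → n < L → V' n = s.V n := by
    intro n h3 h4
    simp only [hV']
    rw [if_pos]
    rw [Int.emod_eq_of_lt h3 (by omega)]
    exact h4
  have h2 : ∀ n : ℤ, L ≤ n → n < M → V' n = s.V n + s.ε := by
    intro n h3 h4
    simp only [hV']
    rw [if_neg]
    rw [Int.emod_eq_of_lt (by omega) h4]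
    omega
  have hG := hG'3 V' (by rw [← hM]; exact hp) (by rw [← hL]; exact h1)
    (by rw [← hM, ← hL]; exact h2)
  obtain ⟨C, hC, hnear⟩ := barrier_step s.V V' s.N J s.ε hN (by omega) s.hV
    (by rw [← hM]; exact hp) (by rw [← hL]; exact h1) (by rw [← hM, ← hL]; exact h2)
  have hnear' := hnear s.d s.hd0 s.hd1 s.hsep
  have hbig := hJ0 J (by omega)
  obtain ⟨κ, hκ⟩ : ∃ κ : ℝ, κ = 11 / (s.d * (1 + s.d / 5) ^ (J * s.N / 2 - 1)) := ⟨_, rfl⟩
  rw [← hκ] at hbig hnear'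
  rw [← hM] at hbig hC hG
  have hd0 := s.hd0
  have hκ0 : 0 ≤ κ := by rw [hκ]; positivity
  have hMr : (1 : ℝ) ≤ M := by
    have : 1 ≤ M := by omega
    exact_mod_cast this
  have hMr0 : (0 : ℝ) < M := by linarith
  have h8 : (0 : ℝ) < 8 ^ k := by positivity
  have htol : (C.card : ℝ) ^ 2 * (4 * κ) < 8 * (1 / 8) ^ (k + 1) / M := by
    have hc : (C.card : ℝ) ≤ 2 * M := by exact_mod_cast hC
    rw [lt_div_iff₀ hMr0]
    have e1 : (8 : ℝ) * (1 / 8) ^ (k + 1) = 1 / 8 ^ k := by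
      rw [pow_succ, one_div_pow]; ring
    rw [e1, lt_div_iff₀ h8]
    calc (C.card : ℝ) ^ 2 * (4 * κ) * M * 8 ^ k ≤ (2 * (M : ℝ)) ^ 2 * (4 * κ) * M * 8 ^ k := by
          gcongr
      _ = 16 * 8 ^ k * (M : ℝ) ^ 3 * κ := by ring
      _ < 1 := hbig
  have hκM : (M : ℝ) * κ ≤ 2 * (1 / 2) ^ (k + 1) := by
    have e1 : (2 : ℝ) * (1 / 2) ^ (k + 1) = 1 / 2 ^ k := by
      rw [pow_succ, one_div_pow]; ring
    rw [e1, le_div_iff₀ (by positivity)]
    have h28 : (2 : ℝ) ^ k ≤ 8 ^ k := pow_le_pow_left₀ (by norm_num) (by norm_num) k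
    have hM3 : (M : ℝ) ≤ (M : ℝ) ^ 3 := by
      calc (M : ℝ) = (M : ℝ) * 1 := by ring
        _ ≤ M * (M : ℝ) ^ 2 := by
          apply mul_le_mul_of_nonneg_left _ hMr0.le
          nlinarith
        _ = _ := by ring
    calc (M : ℝ) * κ * 2 ^ k ≤ (M : ℝ) ^ 3 * κ * 8 ^ k := by gcongr
      _ ≤ 16 * 8 ^ k * (M : ℝ) ^ 3 * κ := by
        have : 0 ≤ 8 ^ k * (M : ℝ) ^ 3 * κ := by positivity
        nlinarith
      _ ≤ 1 := hbig.le
  obtain ⟨ε', hε'0, hε'1, d', hd'0, hd'1, hd'2⟩ := choose_eps C κ _ hκ0 htol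
  refine ⟨⟨M, V', ε', G', d', C, κ, by omega, hp, hε'0, hε'1, hG, hd'0, hd'1,
    sep_of_near hnear' hd'2, hκ0, hC, hκM, hnear'⟩, ?_, ?_, hG'1, hG'2⟩
  · show 2 * s.N ≤ M
    omega
  · intro n
    show s.V n ≤ V' n ∧ V' n ≤ s.V n + s.ε
    have := s.hε0
    simp only [hV']
    split_ifs
    · constructor <;> linarith
    · constructor <;> linarith

/-- the initial level -/
noncomputable def st0 : St 0 where
  N := 1
  V := fun _ => 0
  ε := 8
  G := Set.Ioo 0 (1 / 2 ^ 33) ×ˢ Set.Ioo (-1) 1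
  d := 1
  C := {0}
  κ := 2
  hN := one_pos
  hV := fun _ => rfl
  hε0 := by norm_num
  hε := by norm_num
  hG := good_zero2
  hd0 := one_pos
  hd1 := le_rfl
  hsep := by
    intro H hH E hE E' hE'
    obtain ⟨c, hc, h1⟩ := free_near H hH E hE
    obtain ⟨c', hc', h2⟩ := free_near H hH E' hE'
    rw [Finset.mem_singleton] at hc hc'
    subst hc hc'
    rw [zero_sub, abs_neg] at h1 h2
    have a1 := abs_le.1 h1
    have a2 := abs_le.1 h2
    rw [abs_of_neg (by linarith)]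
    linarith
  hκ0 := by norm_num
  hC := by simp
  hκ := by norm_num
  hnear := free_near

/-- the sequence of levels -/
noncomputable def lev : (k : ℕ) → St k
  | 0 => st0
  | (k + 1) => Classical.choose (exists_next (lev k))

theorem lev_rel (k : ℕ) : Rel (lev k) (lev (k + 1)) := Classical.choose_spec (exists_next (lev k))

theorem lev_tail (k j : ℕ) (n : ℤ) : (lev (k + j)).V n + 64 / 7 * (1 / 8) ^ (k + j) / (lev k).N ≤
    (lev k).V n + 64 / 7 * (1 / 8) ^ k / (lev k).N ∧ (lev k).N ≤ (lev (k + j)).N := by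
  induction j with
  | zero => simp
  | succ j ih =>
    obtain ⟨h1, h2, -, -⟩ := lev_rel (k + j)
    have hNk : (0 : ℝ) < (lev k).N := by exact_mod_cast (lev k).hN
    have hNle : ((lev k).N : ℝ) ≤ (lev (k + j)).N := by exact_mod_cast ih.2
    have hε := (lev (k + j)).hε
    have h3 : (8 : ℝ) * (1 / 8) ^ (k + j) / (lev (k + j)).N ≤ 8 * (1 / 8) ^ (k + j) / (lev k).N := by
      gcongr
    have h4 := (h2 n).2
    refine ⟨?_, ?_⟩
    · have e : (64 : ℝ) / 7 * (1 / 8) ^ (k + (j + 1)) / (lev k).N =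
          64 / 7 * (1 / 8) ^ (k + j) / (lev k).N - 8 * (1 / 8) ^ (k + j) / (lev k).N := by
        rw [← add_assoc, pow_succ]
        ring
      rw [e, ← add_assoc]
      linarith [ih.1]
    · rw [← add_assoc]
      omega

theorem lev_mono (n : ℤ) : Monotone (fun k => (lev k).V n) :=
  monotone_nat_of_le_succ fun k => ((lev_rel k).2.1 n).1

/-- the potential -/
noncomputable def VV (n : ℤ) : ℝ := ⨆ k, (lev k).V n

theorem lev_bdd (n : ℤ) : BddAbove (Set.range (fun k => (lev k).V n)) := by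
  refine ⟨(lev 0).V n + 64 / 7 * (1 / 8) ^ 0 / (lev 0).N, ?_⟩
  rintro _ ⟨k, rfl⟩
  have := (lev_tail 0 k n).1
  rw [zero_add] at this
  have h2 : (0 : ℝ) ≤ 64 / 7 * (1 / 8) ^ k / (lev 0).N := by positivity
  simp only
  linarith

theorem lev_tendsto (n : ℤ) : Tendsto (fun k => (lev k).V n) atTop (𝓝 (VV n)) :=
  tendsto_atTop_ciSup (lev_mono n) (lev_bdd n)

theorem VV_near (k : ℕ) (n : ℤ) : |VV n - (lev k).V n| ≤ 64 / 7 * (1 / 8) ^ k / (lev k).N := by
  have h1 : (lev k).V n ≤ VV n := le_ciSup (lev_bdd n) k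
  have h2 : VV n ≤ (lev k).V n + 64 / 7 * (1 / 8) ^ k / (lev k).N := by
    have ht := (lev_tendsto n).comp (tendsto_add_atTop_nat k)
    refine le_of_tendsto' ht fun j => ?_
    have := (lev_tail k j n).1
    have h2 : (0 : ℝ) ≤ 64 / 7 * (1 / 8) ^ (k + j) / (lev k).N := by positivity
    simp only [Function.comp]
    rw [add_comm j k]
    linarith
  rw [abs_of_nonneg (by linarith)]
  linarith

theorem VV_bdd (n : ℤ) : |VV n| ≤ 10 := by
  have h := VV_near 0 n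
  have e1 : (lev 0).V n = 0 := rfl
  have e2 : ((lev 0).N : ℝ) = 1 := by
    have : (lev 0).N = 1 := rfl
    rw [this]; norm_num
  rw [e1, e2, sub_zero] at h
  norm_num at h
  linarith

end Pool.Agent.Y664.LC
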